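import Pool.Agent.TSM.Closed
import Pool.Agent.TSZ.RpFinal
import Pool.Agent.TSZ.Sanity

/-!
# MP_89ee87_gt: tight polyhedral immersions of closed surfaces admit tight smoothings

Every tight polyhedral immersion of a closed surface into Euclidean 3-space admits a tight
smoothing (theorem `result`).  All definitions used by the statement are in this file.

The theorem has no condition on the Euler characteristic.  For Euler characteristic `-1` it
contradicts a nonexistence theorem in the literature (Haab 1992) as soon as this surface has a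
tight polyhedral immersion (Cervone 1994).  Therefore the file also contains `chi_neg_one`: an
explicit tight polyhedral immersion of the closed surface of Euler characteristic `-1` with 13
vertices (integer coordinates of absolute value at most 5, see `Pool/Agent/TSZ/Rp.lean`; all
conditions are checked in Lean), which has a tight smoothing by `result`.  Sanity theorems for the
definitions (tetrahedron, dented tetrahedron, round sphere; a map which admits a tight smoothing is
tight) are in `Pool/Agent/TSZ/Sanity.lean`.
-/

set_option autoImplicit false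

open scoped RealInnerProductSpace ContDiff Manifold

namespace Pool.Agent.Results.MP_89ee87_gt.TightSmoothing

/-- The Euclidean plane. -/
abbrev E2 := EuclideanSpace ℝ (Fin 2)

/-- Euclidean 3-space. -/
abbrev E3 := EuclideanSpace ℝ (Fin 3)

/-- `M` is a closed surface: a compact connected Hausdorff space which is locally homeomorphic to
the plane. -/
def ClosedSurface (M : Type) [TopologicalSpace M] : Prop :=
  CompactSpace M ∧ ConnectedSpace M ∧ T2Space M ∧
    ∀ x : M, ∃ e : OpenPartialHomeomorph M E2, x ∈ e.source

/-- `c` lists the link of `v` in the family of triangles `tri` as a cycle of length `n`: the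
triangles which contain `v` are exactly the sets `{v, c i, c (i + 1)}`, `i` modulo `n`. -/
def IsLinkCycle {V : Type} [DecidableEq V] (tri : Finset (Finset V)) (v : V) (n : ℕ)
    (c : ZMod n → V) : Prop :=
  3 ≤ n ∧ Function.Injective c ∧ (∀ i, c i ≠ v) ∧
    ∀ t : Finset V, (t ∈ tri ∧ v ∈ t) ↔ ∃ i, t = {v, c i, c (i + 1)}

/-- A closed combinatorial surface with vertex set `V`: a finite set of triangles such that the
link of every vertex is a cycle. -/
structure CombSurface (V : Type) [Fintype V] [DecidableEq V] where
  /-- the triangles -/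
  tri : Finset (Finset V)
  /-- triangles have three vertices -/
  card3 : ∀ t ∈ tri, t.card = 3
  /-- links are cycles -/
  link : ∀ v : V, ∃ (n : ℕ) (c : ZMod n → V), IsLinkCycle tri v n c

/-- The body (geometric realisation) of a combinatorial surface, in barycentric coordinates. -/
def CombSurface.body {V : Type} [Fintype V] [DecidableEq V] (K : CombSurface V) : Set (V → ℝ) :=
  {w | (∀ v, 0 ≤ w v) ∧ ∑ v, w v = 1 ∧ ∃ t ∈ K.tri, ∀ v, v ∉ t → w v = 0}

/-- The closed star of the vertex `v`: the union of the triangles which contain `v`. -/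
def CombSurface.star {V : Type} [Fintype V] [DecidableEq V] (K : CombSurface V) (v : V) :
    Set (V → ℝ) :=
  {w | (∀ u, 0 ≤ w u) ∧ ∑ u, w u = 1 ∧ ∃ t ∈ K.tri, v ∈ t ∧ ∀ u, u ∉ t → w u = 0}

/-- `f : M → ℝ³` is a polyhedral immersion: it is linear on the faces of some triangulation of
`M` (a closed combinatorial surface `K` with a homeomorphism `τ : |K| → M`), and `f` is injective
on the star of every vertex. -/
def PolyImm {M : Type} [TopologicalSpace M] (f : M → E3) : Prop :=
  ∃ (V : Type) (_ : Fintype V) (_ : DecidableEq V) (K : CombSurface V) (τ : K.body ≃ₜ M)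
    (p : V → E3), (∀ w : K.body, f (τ w) = ∑ v, w.1 v • p v) ∧
      ∀ v, Set.InjOn f (τ '' {w | w.1 ∈ K.star v})

/-- The two-piece property (tightness): the preimage of every closed half-space is connected (or
empty). -/
def Tight {X : Type} [TopologicalSpace X] (f : X → E3) : Prop :=
  ∀ (ν : E3) (c : ℝ), ν ≠ 0 → IsPreconnected {x : X | c ≤ ⟪ν, f x⟫}

/-- `g : X → F` is a smooth immersion for some smooth structure on the topological space `X`:
`X` becomes a smooth manifold modelled on the vector space `E`, `g` is `C^∞`, and its derivative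
is injective at every point. -/
def SmoothImmersion (E : Type) [NormedAddCommGroup E] [NormedSpace ℝ E] {F : Type}
    [NormedAddCommGroup F] [NormedSpace ℝ F] {X : Type} [TopologicalSpace X] (g : X → F) : Prop :=
  ∃ _ : ChartedSpace E X, IsManifold 𝓘(ℝ, E) ∞ X ∧ ContMDiff 𝓘(ℝ, E) 𝓘(ℝ, F) ∞ g ∧
    ∀ x, Function.Injective (mfderiv 𝓘(ℝ, E) 𝓘(ℝ, F) g x)

/-- `f` admits a tight smoothing: for every `ε > 0` there is a tight smooth immersion `g` of `M`
into `ℝ³` with `|g - f| < ε`. -/
def AdmitsTightSmoothing {M : Type} [TopologicalSpace M] (f : M → E3) : Prop :=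
  ∀ ε : ℝ, 0 < ε → ∃ g : M → E3, SmoothImmersion E2 g ∧ Tight g ∧ ∀ x, ‖g x - f x‖ < ε

/-- Every tight polyhedral immersion `f : M → ℝ³` of a closed surface `M` admits a tight
smoothing. -/
theorem result (M : Type) [TopologicalSpace M] (hM : ClosedSurface M) (f : M → E3)
    (hf : PolyImm f) (ht : Tight f) : AdmitsTightSmoothing f := by
  obtain ⟨V, i1, i2, K, τ, p, h1, h2⟩ := hf
  have hf' : Pool.Agent.TSM.PolyImm f :=
    ⟨V, i1, i2, ⟨K.tri, K.card3, K.link⟩, τ, p, h1, h2⟩
  exact Pool.Agent.TSM.final M hM f hf' ht

/-- The Euler characteristic of a combinatorial surface (every element of `V` is a vertex of some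
triangle): number of vertices - number of edges + number of triangles. -/
def eulerChar {V : Type} [Fintype V] [DecidableEq V] (K : CombSurface V) : ℤ :=
  (Fintype.card V : ℤ) - (K.tri.biUnion (Finset.powersetCard 2)).card + K.tri.card

/-- The case of Euler characteristic `-1` is not vacuous: an explicit closed surface of Euler
characteristic `-1` with a tight polyhedral immersion, and its tight smoothing.  Hence the
projective plane with one handle has a tight smooth immersion. -/
theorem chi_neg_one : ∃ (K : CombSurface (Fin 13)) (f : K.body → E3), ClosedSurface K.body ∧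
    eulerChar K = -1 ∧ PolyImm f ∧ Tight f ∧ AdmitsTightSmoothing f := by
  have hM : ClosedSurface (Pool.Agent.TSZ.K13.body) := Pool.Agent.TSZ.closed13
  have hp : PolyImm (Pool.Agent.TSZ.K13.map Pool.Agent.TSZ.p13) := by
    refine ⟨Fin 13, inferInstance, inferInstance,
      ⟨Pool.Agent.TSZ.K13.tri, Pool.Agent.TSZ.K13.card3, Pool.Agent.TSZ.K13.link⟩,
      Homeomorph.refl _, Pool.Agent.TSZ.p13, fun w => rfl, ?_⟩
    rintro v x ⟨x', hx, rfl⟩ y ⟨y', hy, rfl⟩ h
    exact Subtype.ext (Pool.Agent.TSZ.emb13 v hx hy h)
  have ht : Tight (Pool.Agent.TSZ.K13.map Pool.Agent.TSZ.p13) := Pool.Agent.TSZ.tpp13.tight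
  refine ⟨⟨Pool.Agent.TSZ.K13.tri, Pool.Agent.TSZ.K13.card3, Pool.Agent.TSZ.K13.link⟩,
    Pool.Agent.TSZ.K13.map Pool.Agent.TSZ.p13, hM, ?_, hp, ht, result _ hM _ hp ht⟩
  decide +kernel

end Pool.Agent.Results.MP_89ee87_gt.TightSmoothing
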